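import Mathlib
import Pool.Agent.Lib.H22A.Main

set_option autoImplicit false

/-!
MP_39b482_gt (own statement): for a noncompact manifold `M`, possibly with boundary or corners, of
dimension `n > 1`, the Stone-Čech remainder `βM ∖ M` is a continuum if and only if `M` has no
two-point compactification, and then for every nonempty closed set `A` and finite set `F` disjoint
from `A` it contains a subcontinuum with `A` in its interior that misses `F`.

`isPreconnected_remainder'` and `not_isPreconnected_remainder` were written by helper87.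
-/

open Set Topology Filter

universe u

namespace Pool.Agent.Results.MP_39b482_gt.CornerManifolds

/-- The model spaces: the vectors of `ℝⁿ` whose coordinates with index in `S` are nonnegative
(`S` empty: `ℝⁿ`; `S` one index: a closed half space; `S` general: a corner). -/
abbrev Model (n : ℕ) (S : Set (Fin n)) : Type := {v : Fin n → ℝ // ∀ i ∈ S, 0 ≤ v i}

/-- `M` is an `n`-manifold, without or with boundary or corners: it is Hausdorff and second
countable, and every point has an open neighbourhood homeomorphic to an open subset of some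
`Model n S`. -/
def IsManifoldOfDim (n : ℕ) (M : Type u) [TopologicalSpace M] : Prop :=
  T2Space M ∧ SecondCountableTopology M ∧
    ∀ x : M, ∃ (S : Set (Fin n)) (U : Set M) (V : Set (Model n S)),
      IsOpen U ∧ x ∈ U ∧ IsOpen V ∧ Nonempty (U ≃ₜ V)

/-- `M` has a two-point compactification: a compact Hausdorff space `K` with a homeomorphic
embedding `f : M → K` onto a dense subspace such that `K ∖ f(M)` has exactly two points. -/
def HasTwoPointCompactification (M : Type u) [TopologicalSpace M] : Prop :=
  ∃ (K : Type u) (_ : TopologicalSpace K), CompactSpace K ∧ T2Space K ∧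
    ∃ f : M → K, IsEmbedding f ∧ DenseRange f ∧ (range f)ᶜ.ncard = 2

/-- The Stone-Čech remainder `βM ∖ M`, with the subspace topology of `βM`. -/
abbrev Remainder (M : Type u) [TopologicalSpace M] : Type u :=
  {z : StoneCech M // z ∉ range (stoneCechUnit : M → StoneCech M)}

/-- `Y` is a continuum: nonempty, compact, connected and Hausdorff. -/
def IsContinuum (Y : Type u) [TopologicalSpace Y] : Prop :=
  Nonempty Y ∧ CompactSpace Y ∧ PreconnectedSpace Y ∧ T2Space Y

/-- For every nonempty closed set `A` and finite set `F` of `Y` disjoint from `A`, some subcontinuum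
`W` of `Y` has `A` in its interior and misses `F` (with `A = {x}`, `F = {y}`: aposyndetic). -/
def StronglyAposyndetic (Y : Type u) [TopologicalSpace Y] : Prop :=
  ∀ A F : Set Y, IsClosed A → A.Nonempty → F.Finite → Disjoint A F →
    ∃ W : Set Y, IsContinuum W ∧ A ⊆ interior W ∧ Disjoint W F

open Pool.Agent.H83

theorem isPreconnected_remainder' {X : Type u} [TopologicalSpace X] [T2Space X] [NormalSpace X]
    [LocallyCompactSpace X]
    (h : ¬ ∃ (Y : Type u) (_ : TopologicalSpace Y), CompactSpace Y ∧ T2Space Y ∧
          ∃ f : X → Y, Topology.IsEmbedding f ∧ DenseRange f ∧ (Set.range f)ᶜ.ncard = 2) :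
    IsPreconnected (remainder X) := by
  rw [isPreconnected_closed_iff]
  intro t t' ht ht' hRtt' hRt hRt'
  by_contra hcon
  apply h
  have hdis : Disjoint (remainder X ∩ t) (remainder X ∩ t') := by
    rw [Set.disjoint_left]
    rintro z ⟨hz1, hz2⟩ ⟨_, hz3⟩
    exact hcon ⟨z, hz1, hz2, hz3⟩
  obtain ⟨G, hG0, hG1, hG⟩ := exists_continuous_zero_one_of_isClosed
    (isClosed_remainder.inter ht) (isClosed_remainder.inter ht') hdis
  let Φ : StoneCech X → OnePoint X × ℝ := fun z => (toOnePoint z, G z)
  have hΦ : Continuous Φ := continuous_toOnePoint.prodMk G.continuous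
  have hcompact : IsCompact (range Φ) := isCompact_range hΦ
  let f : X → range Φ := fun x => ⟨Φ (stoneCechUnit x), mem_range_self _⟩
  refine ⟨range Φ, inferInstance, isCompact_iff_compactSpace.mp hcompact, inferInstance, f, ?_, ?_,
    ?_⟩
  · have hcont : Continuous f :=
      Continuous.subtype_mk (hΦ.comp continuous_stoneCechUnit) _
    have hproj : Continuous (fun y : range Φ => (y : OnePoint X × ℝ).1) :=
      continuous_fst.comp continuous_subtype_val
    refine Topology.IsEmbedding.of_comp hcont hproj ?_
    have : (fun y : range Φ => (y : OnePoint X × ℝ).1) ∘ f = ((↑) : X → OnePoint X) := by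
      funext x
      exact toOnePoint_unit x
    rw [this]
    exact OnePoint.isOpenEmbedding_coe.isEmbedding
  · have : f = rangeFactorization Φ ∘ stoneCechUnit := rfl
    rw [this]
    exact (rangeFactorization_surjective.denseRange).comp denseRange_stoneCechUnit
      (Continuous.subtype_mk hΦ _)
  · obtain ⟨p, hpR, hpt⟩ := hRt
    obtain ⟨q, hqR, hqt⟩ := hRt'
    have hGp : G p = 0 := hG0 ⟨hpR, hpt⟩
    have hGq : G q = 1 := hG1 ⟨hqR, hqt⟩
    have hrange : (range f)ᶜ = {(⟨Φ p, mem_range_self _⟩ : range Φ), ⟨Φ q, mem_range_self _⟩} := by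
      ext ⟨y, hy⟩
      simp only [mem_compl_iff, mem_insert_iff, mem_singleton_iff, Subtype.mk.injEq]
      obtain ⟨z, rfl⟩ := hy
      constructor
      · intro hz
        have hzR : z ∈ remainder X := by
          rintro ⟨x, rfl⟩
          exact hz ⟨x, rfl⟩
        rcases hRtt' hzR with h1 | h1
        · left
          simp only [Φ, toOnePoint_eq_infty hzR, toOnePoint_eq_infty hpR, hGp, hG0 ⟨hzR, h1⟩]
          rfl
        · right
          simp only [Φ, toOnePoint_eq_infty hzR, toOnePoint_eq_infty hqR, hGq, hG1 ⟨hzR, h1⟩]
          rfl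
      · rintro hz ⟨x, hx⟩
        have hx' : Φ (stoneCechUnit x) = Φ z := congrArg Subtype.val hx
        have hx1 : (x : OnePoint X) = toOnePoint z := by
          rw [← toOnePoint_unit x]
          exact congrArg Prod.fst hx'
        have : toOnePoint z = OnePoint.infty := by
          rcases hz with hz | hz
          · rw [show toOnePoint z = toOnePoint p from congrArg Prod.fst hz,
              toOnePoint_eq_infty hpR]
          · rw [show toOnePoint z = toOnePoint q from congrArg Prod.fst hz,
              toOnePoint_eq_infty hqR]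
        rw [this] at hx1
        exact OnePoint.coe_ne_infty x hx1
    rw [hrange]
    apply ncard_pair
    intro heq
    have h1 : Φ p = Φ q := congrArg Subtype.val heq
    have h2 : G p = G q := congrArg Prod.snd h1
    rw [hGp, hGq] at h2
    exact zero_ne_one h2


theorem not_isPreconnected_remainder {M : Type u} [TopologicalSpace M]
    (h : HasTwoPointCompactification M) : ¬ IsPreconnected (remainder M) := by
  obtain ⟨K, _, _, _, f, hf, hfd, hcard⟩ := h
  obtain ⟨p, q, hpq, hrange⟩ := ncard_eq_two.mp hcard
  have hp : p ∉ range f := by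
    have : p ∈ (range f)ᶜ := by rw [hrange]; exact mem_insert _ _
    exact this
  have hq : q ∉ range f := by
    have : q ∈ (range f)ᶜ := by rw [hrange]; exact mem_insert_of_mem _ rfl
    exact this
  obtain ⟨U, hpU, hU, V, hqV, hV, hUV⟩ := exists_open_nhds_disjoint_closure hpq
  have hF : Continuous (stoneCechExtend hf.continuous) := continuous_stoneCechExtend _
  have hFu : ∀ x, stoneCechExtend hf.continuous (stoneCechUnit x) = f x :=
    fun x => stoneCechExtend_stoneCechUnit hf.continuous x
  have hsurj : ∀ k : K, ∃ z, stoneCechExtend hf.continuous z = k := by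
    have h1 : IsClosed (range (stoneCechExtend hf.continuous)) := (isCompact_range hF).isClosed
    have h2 : DenseRange (stoneCechExtend hf.continuous) := by
      refine hfd.mono ?_
      rintro _ ⟨x, rfl⟩
      exact ⟨stoneCechUnit x, hFu x⟩
    intro k
    have h3 : k ∈ closure (range (stoneCechExtend hf.continuous)) := h2 k
    rwa [h1.closure_eq] at h3
  -- the complement of `U ∪ V` is a compact part of `M`
  have hC : IsCompact (f ⁻¹' (U ∪ V)ᶜ) := by
    rw [hf.isCompact_iff, image_preimage_eq_inter_range]
    have h1 : (U ∪ V)ᶜ ∩ range f = (U ∪ V)ᶜ := by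
      rw [inter_eq_left]
      intro k hk
      by_contra hk'
      have h2 : k ∈ (range f)ᶜ := hk'
      rw [hrange] at h2
      rcases h2 with rfl | h2
      · exact hk (Or.inl hpU)
      · rw [mem_singleton_iff] at h2
        subst h2
        exact hk (Or.inr hqV)
    rw [h1]
    exact (hU.union hV).isClosed_compl.isCompact
  have hcl : ∀ W : Set K, ∀ z ∈ closure (stoneCechUnit '' (f ⁻¹' W)),
      stoneCechExtend hf.continuous z ∈ closure W := by
    intro W z hz
    refine map_mem_closure hF hz ?_
    rintro _ ⟨x, hx, rfl⟩
    rw [hFu]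
    exact hx
  have hcov : remainder M ⊆ closure (stoneCechUnit '' (f ⁻¹' U)) ∪
      closure (stoneCechUnit '' (f ⁻¹' V)) := by
    intro z hz
    have h1 : z ∈ closure (range (stoneCechUnit : M → StoneCech M)) := denseRange_stoneCechUnit z
    have h2 : range (stoneCechUnit : M → StoneCech M) =
        stoneCechUnit '' (f ⁻¹' (U ∪ V)ᶜ) ∪
          (stoneCechUnit '' (f ⁻¹' U) ∪ stoneCechUnit '' (f ⁻¹' V)) := by
      rw [← image_union, ← image_union, ← preimage_union, ← preimage_union, compl_union_self,
        preimage_univ, image_univ]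
    rw [h2, closure_union, closure_union] at h1
    rcases h1 with h1 | h1
    · rw [(hC.image continuous_stoneCechUnit).isClosed.closure_eq] at h1
      obtain ⟨x, -, rfl⟩ := h1
      exact absurd (mem_range_self x) hz
    · exact h1
  have hdis : ∀ z, z ∈ closure (stoneCechUnit '' (f ⁻¹' U)) →
      z ∈ closure (stoneCechUnit '' (f ⁻¹' V)) → False := fun z h1 h2 =>
    disjoint_left.mp hUV (hcl U z h1) (hcl V z h2)
  intro hpre
  obtain ⟨zp, hzp⟩ := hsurj p
  obtain ⟨zq, hzq⟩ := hsurj q
  have hzp' : zp ∈ remainder M := by
    rintro ⟨x, rfl⟩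
    exact hp ⟨x, by rw [← hFu, hzp]⟩
  have hzq' : zq ∈ remainder M := by
    rintro ⟨x, rfl⟩
    exact hq ⟨x, by rw [← hFu, hzq]⟩
  have h3 : zp ∈ closure (stoneCechUnit '' (f ⁻¹' U)) := by
    rcases hcov hzp' with h | h
    · exact h
    · have h4 := hcl V zp h
      rw [hzp] at h4
      exact absurd h4 (disjoint_left.mp hUV (subset_closure hpU))
  have h4 : zq ∈ closure (stoneCechUnit '' (f ⁻¹' V)) := by
    rcases hcov hzq' with h | h
    · have h4 := hcl U zq h
      rw [hzq] at h4
      exact absurd (subset_closure hqV) (disjoint_left.mp hUV h4)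
    · exact h
  obtain ⟨z, -, hz1, hz2⟩ := isPreconnected_closed_iff.mp hpre _ _ isClosed_closure isClosed_closure
    hcov ⟨zp, hzp', h3⟩ ⟨zq, hzq', h4⟩
  exact hdis z hz1 hz2

/-- Let `n > 1` and let `M` be a noncompact `n`-manifold, without or with boundary or corners. If
`M` has no two-point compactification, then the Stone-Čech remainder `βM ∖ M` is a continuum, it is
aposyndetic, even for closed sets `A` and finite sets `F` in place of `x` and `y`, and it stays
connected when finitely many points are removed. If `M` has a two-point compactification, then the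
remainder is not connected. -/
theorem result : ∀ (n : ℕ) (M : Type u) [TopologicalSpace M], 1 < n → IsManifoldOfDim n M →
    NoncompactSpace M →
      (¬ HasTwoPointCompactification M →
        IsContinuum (Remainder M) ∧ StronglyAposyndetic (Remainder M) ∧
          ∀ F : Set (Remainder M), F.Finite → IsPreconnected Fᶜ) ∧
      (HasTwoPointCompactification M → ¬ PreconnectedSpace (Remainder M)) := by
  intro n M _ hn hM hnc
  classical
  obtain ⟨_, _, hloc⟩ := hM
  choose S U V hU hxU hV e using hloc
  let ψ : ∀ x, OpenPartialHomeomorph M (Model n (S x)) := fun x =>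
    (((TopologicalSpace.Opens.mk (U x) (hU x)).openPartialHomeomorphSubtypeCoe
        ⟨⟨x, hxU x⟩⟩).symm.transHomeomorph (e x).some).trans
      ((TopologicalSpace.Opens.mk (V x) (hV x)).openPartialHomeomorphSubtypeCoe
        ⟨(e x).some ⟨x, hxU x⟩⟩)
  have hψ : ∀ x, x ∈ (ψ x).source := by
    intro x
    simp [ψ]
    exact hxU x
  have hlc : LocallyCompactSpace M := Pool.Agent.Lib.H22A.locallyCompact S ψ hψ
  have hnorm : NormalSpace M := inferInstance
  refine ⟨fun h => ?_, fun h hpre => not_isPreconnected_remainder h
    (isPreconnected_iff_preconnectedSpace.mpr hpre)⟩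
  have hpre : IsPreconnected (remainder M) := isPreconnected_remainder' h
  have hind : IsInducing (Subtype.val : Remainder M → StoneCech M) := IsInducing.subtypeVal
  have hstrong : StronglyAposyndetic (Remainder M) := by
    intro A F hA hAne hF hAF
    have hcpt : CompactSpace (Remainder M) := isCompact_iff_compactSpace.mp isCompact_remainder
    have hA' : IsClosed (Subtype.val '' A : Set (StoneCech M)) :=
      (hA.isCompact.image continuous_subtype_val).isClosed
    have hAR : (Subtype.val '' A : Set (StoneCech M)) ⊆ remainder M := by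
      rintro _ ⟨z, -, rfl⟩
      exact z.2
    have hAF' : Disjoint (Subtype.val '' A : Set (StoneCech M))
        ((hF.toFinset.image Subtype.val : Finset (StoneCech M)) : Set (StoneCech M)) := by
      rw [Finset.coe_image, Set.Finite.coe_toFinset]
      exact (disjoint_image_iff Subtype.val_injective).mpr hAF
    obtain ⟨K, hK, hKc, hKn, hKF, G, hG, hAG, hGK⟩ := Pool.Agent.Lib.H22A.strong hn S ψ hψ hpre
      hA' hAR (hAne.image _) _ hAF'
    have himg : (Subtype.val : Remainder M → StoneCech M) '' (Subtype.val ⁻¹' K) = K := by
      rw [image_preimage_eq_inter_range, inter_eq_left]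
      intro z hz
      exact ⟨⟨z, hK hz⟩, rfl⟩
    refine ⟨Subtype.val ⁻¹' K, ⟨?_, ?_, ?_, inferInstance⟩, ?_, ?_⟩
    · obtain ⟨z, hz⟩ := hKn.nonempty
      exact ⟨⟨⟨z, hK hz⟩, hz⟩⟩
    · rw [← isCompact_iff_compactSpace, hind.isCompact_iff, himg]
      exact hKc
    · rw [← isPreconnected_iff_preconnectedSpace, ← hind.isPreconnected_image, himg]
      exact hKn.isPreconnected
    · intro a ha
      rw [mem_interior]
      exact ⟨Subtype.val ⁻¹' G, fun z hz => hGK ⟨hz, z.2⟩, hG.preimage continuous_subtype_val,
        hAG ⟨a, ha, rfl⟩⟩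
    · rw [Set.disjoint_left]
      intro z hz hzF
      refine Set.disjoint_left.mp hKF hz ?_
      rw [Finset.coe_image, Set.Finite.coe_toFinset]
      exact ⟨z, hzF, rfl⟩
  refine ⟨⟨remainder_nonempty.to_subtype, isCompact_iff_compactSpace.mp isCompact_remainder,
      isPreconnected_iff_preconnectedSpace.mp hpre, inferInstance⟩, hstrong, ?_⟩
  intro F hF
  apply isPreconnected_of_forall_pair
  intro a ha b hb
  obtain ⟨W, ⟨-, -, hWp, -⟩, hAW, hWF⟩ := hstrong {a, b} F (Set.toFinite _).isClosed
    ⟨a, mem_insert _ _⟩ hF (by
      rw [Set.disjoint_left]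
      rintro z (rfl | hz) hzF
      · exact ha hzF
      · rw [mem_singleton_iff] at hz
        subst hz
        exact hb hzF)
  exact ⟨W, fun z hz hzF => Set.disjoint_left.mp hWF hz hzF,
    interior_subset (hAW (mem_insert _ _)), interior_subset (hAW (mem_insert_of_mem _ rfl)),
    isPreconnected_iff_preconnectedSpace.mpr hWp⟩

end Pool.Agent.Results.MP_39b482_gt.CornerManifolds
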